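import Mathlib
import Pool.Agent.Helper78_ACIT.Circuit
import Pool.Agent.Helper12_UO.ExpoHit
import Pool.Agent.Helper12_UO.ExpoBound

set_option autoImplicit false

/-!
# `MP_b2b50d_lc`: black-box identity test for read-once branching programs of bounded width,
unknown order and exponential degree

The test applies to all circuits, of any shape, whose polynomial is zero or divides a nonzero
polynomial computed by a read-once oblivious branching program of width `w` with `n` layers.  Each
layer has its own `c` variables; which variables belong to which layer, and the order of the layers,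
do not enter the test.  Each layer is a combination, with integer matrices as coefficients, of `k`
products of powers of arbitrary primitive polynomials, with exponents written in binary.
-/

namespace Pool.Agent.Results.MP_b2b50d_lc.UnknownOrder

open Polynomial Matrix Pool.Agent.Helper78_ACIT Pool.Agent.Helper12_CW Pool.Agent.UO

/-- The sum of the absolute values of the coefficients. -/
noncomputable def length {c : ℕ} (f : MvPolynomial (Fin c) ℤ) : ℕ :=
  ∑ d ∈ f.support, (f.coeff d).natAbs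

/-- The polynomial `a P_0 P_1 ... P_(n-1) z` of the program whose layer `B` is the `w × w` matrix
`P_B = ∑ u < k, g_(B,u) M_(B,u)` with `g_(B,u) = A_(B,u) ∏ j < m, f_(B,j) ^ e_(B,u,j)` in the
variables `x_(ι(B,0)), ..., x_(ι(B,c-1))`. -/
noncomputable def program {n m k c w : ℕ} (ι : Fin n → Fin c → ℕ)
    (f : Fin n → Fin m → MvPolynomial (Fin c) ℤ)
    (A : Fin n → Fin k → MvPolynomial (Fin c) ℤ) (e : Fin n → Fin k → Fin m → ℕ)
    (M : Fin n → Fin k → Matrix (Fin w) (Fin w) ℤ) (a z : Fin w → ℤ) : MvPolynomial ℕ ℤ :=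
  (fun i => MvPolynomial.C (a i)) ⬝ᵥ ((List.ofFn fun B : Fin n =>
    ∑ u, MvPolynomial.rename (ι B) (A B u * ∏ j, f B j ^ e B u j) •
      (M B u).map MvPolynomial.C).prod *ᵥ fun i => MvPolynomial.C (z i))

/-- The value of the circuit `G` in the finite ring `F_p[X] / (X ^ R)` at the point
`x_i = ∑ j < c, γ_j ∏ l < v, l ≠ i, (β_j - l) + X ∑ j < t, y'_j ∏ l < v, l ≠ i, (y_j - l)`
(`i < v`; `x_i = 0` for `i ≥ v`). -/
noncomputable def testValue {c t : ℕ} (v R p : ℕ) (β γ : Fin c → ZMod p) (y y' : Fin t → ZMod p)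
    (G : List Gate) : AdjoinRoot (X ^ R : (ZMod p)[X]) :=
  out (fun i => AdjoinRoot.of _ (point v β γ i) +
    AdjoinRoot.root _ * AdjoinRoot.of _ (point v y y' i)) G

lemma testValue_eq {c t : ℕ} (v R p : ℕ) (β γ : Fin c → ZMod p) (y y' : Fin t → ZMod p)
    (G : List Gate) : testValue v R p β γ y y' G =
      AdjoinRoot.mk _ (onPoint p (point v β γ) (point v y y') (poly G)) := by
  have h1 := out_map (AdjoinRoot.mk (X ^ R : (ZMod p)[X]))
    (fun i => C (point v β γ i) + X * C (point v y y' i)) G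
  have h2 : (fun i => AdjoinRoot.mk (X ^ R : (ZMod p)[X])
      (C (point v β γ i) + X * C (point v y y' i))) =
      fun i => AdjoinRoot.of (X ^ R : (ZMod p)[X]) (point v β γ i) +
        AdjoinRoot.root _ * AdjoinRoot.of _ (point v y y' i) := by
    funext i
    rw [map_add, map_mul, AdjoinRoot.mk_C, AdjoinRoot.mk_C, AdjoinRoot.mk_X]
  rw [h2] at h1
  unfold testValue
  rw [← h1, out_eq_eval]
  rfl

lemma program_eq {n m k c w : ℕ} (ι : Fin n → Fin c → ℕ)
    (f : Fin n → Fin m → MvPolynomial (Fin c) ℤ)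
    (A : Fin n → Fin k → MvPolynomial (Fin c) ℤ) (e : Fin n → Fin k → Fin m → ℕ)
    (M : Fin n → Fin k → Matrix (Fin w) (Fin w) ℤ) (a z : Fin w → ℤ) (r : ℕ → Fin n)
    (hr : ∀ B : Fin n, r B = B) :
    program ι f A e M a z = progU n (fun B => ι (r B)) a z
      (fun B u => A (r B) u * ∏ j, f (r B) j ^ e (r B) u j) (fun B u => M (r B) u) := by
  unfold program progU val
  congr 3
  apply List.ext_getElem
  · simp
  · intro i h1 h2
    rw [List.length_ofFn] at h1
    rw [List.getElem_ofFn, List.getElem_map, List.getElem_range]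
    simp only [hr ⟨i, h1⟩]

/-- Let `F` be the polynomial of a read-once program of width `w` with `n ≥ 1` layers in
`x_0, ..., x_(v-1)`, each with its own `c` variables: the layer `B` is
`∑ u < k, A_(B,u) ∏ j < m, f_(B,j) ^ e_(B,u,j) M_(B,u)` in the variables `x_(ι(B,s))`, `s < c`, with
arbitrary polynomials `A_(B,u)` and primitive polynomials `f_(B,j)` of degree at most `D` and length
at most `2 ^ b`, exponents at most `2 ^ b`, and integer matrices `M_(B,u)` with entries of absolute
value at most `2 ^ b`; the map `ι` is injective and otherwise arbitrary.  Let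
`N = k ^ 2 m D + k D + k`, `R = n N` and `t ≥ seedLength w 1 c`, a number that depends only on `w`
and `c`.  Then a circuit `G` whose polynomial is zero or divides `F ≠ 0` computes zero if and only
if it vanishes at all the points
`x_i = ∑ j < c, γ_j ∏ l < v, l ≠ i, (β_j - l) + X ∑ j < t, y'_j ∏ l < v, l ≠ i, (y_j - l)`
of `F_p[X] / (X ^ R)`, `β, γ` in `F_p ^ c`, `y, y'` in `F_p ^ t`, for all primes
`p ≤ (v + n + m + k + w + b + D + N + 2) ^ 64`. -/
theorem result (v n m k c w D b N R t : ℕ) (hn : 1 ≤ n) (ht : seedLength w 1 c ≤ t)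
    (hN : N = k ^ 2 * m * D + k * D + k) (hR : R = n * N)
    (ι : Fin n → Fin c → ℕ) (hι : ∀ B s, ι B s < v)
    (hinj : ∀ B B' s s', ι B s = ι B' s' → B = B' ∧ s = s')
    (f : Fin n → Fin m → MvPolynomial (Fin c) ℤ) (A : Fin n → Fin k → MvPolynomial (Fin c) ℤ)
    (e : Fin n → Fin k → Fin m → ℕ) (M : Fin n → Fin k → Matrix (Fin w) (Fin w) ℤ)
    (a z : Fin w → ℤ)
    (hprim : ∀ B j, ∀ t : ℤ, MvPolynomial.C t ∣ f B j → IsUnit t)
    (hfD : ∀ B j, (f B j).totalDegree ≤ D) (hAD : ∀ B u, (A B u).totalDegree ≤ D)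
    (hfb : ∀ B j, length (f B j) ≤ 2 ^ b) (hAb : ∀ B u, length (A B u) ≤ 2 ^ b)
    (he : ∀ B u j, e B u j ≤ 2 ^ b) (hM : ∀ B u i j, (M B u i j).natAbs ≤ 2 ^ b)
    (ha : ∀ i, (a i).natAbs ≤ 2 ^ b) (hz : ∀ i, (z i).natAbs ≤ 2 ^ b)
    (G : List Gate) (hG : WellFormed G)
    (hpoly : poly G = 0 ∨ (program ι f A e M a z ≠ 0 ∧ poly G ∣ program ι f A e M a z)) :
    G ∈ ACIT ↔ ∀ p, p.Prime → p ≤ (v + n + m + k + w + b + D + N + 2) ^ 64 →
      ∀ (β γ : Fin c → ZMod p) (y y' : Fin t → ZMod p), testValue v R p β γ y y' G = 0 := by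
  constructor
  · rintro ⟨-, h0⟩ p _ _ β γ y y'
    rw [testValue_eq, h0, map_zero, map_zero]
  · intro htest
    refine ⟨hG, ?_⟩
    rcases hpoly with h0 | ⟨hF, hdvd⟩
    · exact h0
    exfalso
    obtain ⟨r, hr⟩ : ∃ r : ℕ → Fin n, ∀ B : Fin n, r B = B := by
      refine ⟨fun B => ⟨min B (n - 1), by omega⟩, fun B => Fin.ext ?_⟩
      simp only
      have := B.2
      omega
    have hprog := program_eq ι f A e M a z r hr
    obtain ⟨Q, hQ⟩ : ∃ Q, Q = v + n + m + k + w + b + D + N + 2 := ⟨_, rfl⟩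
    obtain ⟨Rb, hRb⟩ : ∃ Rb, Rb = v * (n * N) + (k * (D + k * (m * D)) + (m * D +
      m * D * (m * D) * (2 * D * D) + (D + k * (k * (D + k * (m * D))) * (m * D)))) + 1 := ⟨_, rfl⟩
    have hc : c ≤ v := by
      have h1 : Function.Injective (fun s : Fin c => (⟨ι (r 0) s, hι _ _⟩ : Fin v)) := by
        intro s s' h
        exact (hinj _ _ _ _ (congrArg Fin.val h)).2
      have h2 := Fintype.card_le_of_injective _ h1
      simpa using h2
    obtain ⟨h1, h2, h3, h4, h5, h6⟩ := bound_le' v n m k b c D w N Q hQ hc Rb hRb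
    have hNB : k * (D + k * (m * D)) + k = N := by rw [hN]; ring
    have hrval : ∀ B < n, ((r B : Fin n) : ℕ) = B := by
      intro B hB
      have := hr ⟨B, hB⟩
      exact congrArg Fin.val this
    rw [hprog] at hF hdvd
    obtain ⟨p, hp, hple, β, γ, y, y', hhit⟩ := exists_hit_unknown n m k D b
      (k * (D + k * (m * D))) w N (Q ^ 9) (Q ^ 11) (Q ^ 13) (12 * Q) (Q ^ 16) Rb v t hn ht
      (fun B => ι (r B)) (fun B _ s => hι _ s) (fun B hB B' hB' s s' h => by
        obtain ⟨e1, e2⟩ := hinj _ _ _ _ h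
        refine ⟨?_, e2⟩
        rw [← hrval B hB, ← hrval B' hB', e1])
      (fun B => f (r B)) (fun B => A (r B)) (fun B => e (r B)) (fun B => M (r B)) a z
      (fun B => hprim _) (fun B => hfD _) (fun B => hAD _) (fun B => hfb _) (fun B => hAb _)
      (fun B => he _) (fun B => hM _) ha hz le_rfl h1 h2 h3 h4 (Nat.one_le_pow _ _ (by omega)) h5
      (by omega) (by omega) (by omega) hNB.le hF
    have h7 := htest p hp (by rw [← hQ]; exact hple.trans h6) β γ y y'
    rw [testValue_eq, AdjoinRoot.mk_eq_zero] at h7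
    apply hhit
    rw [← hR]
    exact h7.trans (map_dvd (onPoint p (point v β γ) (point v y y')) hdvd)

end Pool.Agent.Results.MP_b2b50d_lc.UnknownOrder
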